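import Pool.Agent.Helper70.EQ.Goals

/-!
# Project EQ (MP_20ee5e_ag), packet UB: the upper bound
-/

set_option autoImplicit false

open MeasureTheory Set

namespace Pool.Agent.Helper46.EQ.UB

open Pool.Agent.Helper70.KN Pool.Agent.Helper70.EQ

theorem X0 {N : ℕ} (V : Finset (Fin N → ℕ)) : X V 0 = W V ∅ := by
  unfold X
  rw [Finset.powersetCard_zero, Finset.sum_singleton]

theorem X1 {N : ℕ} (V : Finset (Fin N → ℕ)) : X V 1 = ∑ i, W V {i} := by
  unfold X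
  rw [Finset.powersetCard_one, Finset.sum_map]
  rfl

theorem t (hAV : S_AV) (hY1 : S_Y1) (hY2 : S_Y2) (hXX : S_XX) : G_UB := by
  intro N V c hN hT hc
  have hconv := hT.1
  have hc0 : 0 < c := hT.2.1
  have hNr : (3 : ℝ) ≤ (N : ℝ) := by exact_mod_cast hN
  have h1 := hAV N hN V hconv (1 / 2) (by norm_num) le_rfl
  have h2 : ∀ i : Fin N, (1 / 2 - ((N : ℝ) - 1) * (1 / 2) ^ 2 / (2 * c)) * W V {i} ≤
      Y V (1 / 2) {i} := fun i => hY1 N V c hT i (1 / 2) (by norm_num) (by linarith)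
  have h3 : ∀ J ∈ (Finset.univ : Finset (Fin N)).powersetCard 2,
      Y V (1 / 2) J ≤ 1 / 4 * W V J := by
    intro J hJ
    have h := hY2 N V hconv J (1 / 2) (by norm_num)
    rw [(Finset.mem_powersetCard.1 hJ).2] at h
    have h4 : ((1 : ℝ) / 2) ^ 2 = 1 / 4 := by norm_num
    rwa [h4] at h
  have s2 : (1 / 2 - ((N : ℝ) - 1) * (1 / 2) ^ 2 / (2 * c)) * X V 1 ≤
      ∑ i, Y V (1 / 2) {i} := by
    rw [X1, Finset.mul_sum]
    exact Finset.sum_le_sum fun i _ => h2 i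
  have s3 : ∑ J ∈ (Finset.univ : Finset (Fin N)).powersetCard 2, Y V (1 / 2) J ≤
      1 / 4 * X V 2 := by
    unfold X
    rw [Finset.mul_sum]
    exact Finset.sum_le_sum h3
  have hxx := hXX N V c hT 1 (by omega)
  obtain ⟨m, rfl⟩ : ∃ m, N = m + 2 := ⟨N - 2, by omega⟩
  have t0 : T V 0 = ((m + 2).factorial : ℝ) * W V ∅ := by
    unfold T
    rw [X0, Nat.sub_zero]
  have t1 : T V 1 = ((m + 1).factorial : ℝ) * X V 1 := rfl
  have t2 : T V 2 = (m.factorial : ℝ) * X V 2 := rfl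
  have f2 : ((m + 2).factorial : ℝ) = ((m : ℝ) + 2) * ((m + 1).factorial : ℝ) := by
    rw [Nat.factorial_succ (m + 1)]
    push_cast
    ring
  have f1 : ((m + 1).factorial : ℝ) = ((m : ℝ) + 1) * (m.factorial : ℝ) := by
    rw [Nat.factorial_succ m]
    push_cast
    ring
  have hF : (0 : ℝ) ≤ ((m + 1).factorial : ℝ) := by positivity
  have hm0 : (0 : ℝ) ≤ (m : ℝ) := Nat.cast_nonneg m
  push_cast at h1 s2 hxx hNr ⊢
  set d : ℝ := 1 / (8 * c) with hd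
  have hd0 : 0 < d := by positivity
  have hdc : d * (8 * c) = 1 := by
    rw [hd]
    field_simp
  have k1 : ((m : ℝ) + 2 - 1) * (1 / 2) ^ 2 / (2 * c) = ((m : ℝ) + 1) * d := by
    rw [hd]
    field_simp
    ring
  have k2 : ((m : ℝ) + 2 - 1) ^ 3 / (8 * c) = ((m : ℝ) + 1) ^ 3 * d := by
    rw [hd]
    field_simp
    ring
  rw [k1] at s2
  rw [k2]
  have e2 : T V 2 ≤ 4 * ((m : ℝ) + 1) * d * T V 1 := by
    have h5 : (2 * c) * T V 2 ≤ ((m : ℝ) + 1) * T V 1 := by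
      have h6 : T V (1 + 1) = T V 2 := rfl
      rw [h6] at hxx
      nlinarith [hxx]
    have h7 := mul_le_mul_of_nonneg_left h5 (mul_nonneg (by norm_num : (0 : ℝ) ≤ 4) hd0.le)
    have h8 : 4 * d * (2 * c * T V 2) = T V 2 := by
      have : 4 * d * (2 * c * T V 2) = d * (8 * c) * T V 2 := by ring
      rw [this, hdc, one_mul]
    rw [h8] at h7
    nlinarith [h7]
  have e3 : ((m : ℝ) + 2) * (genus V : ℝ) ≤ ((m : ℝ) + 2) * W V ∅ -
      ((m : ℝ) + 1) * ((1 / 2 - ((m : ℝ) + 1) * d) * X V 1) + (m : ℝ) * (1 / 4 * X V 2) := by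
    have a1 := mul_le_mul_of_nonneg_left s2 (by positivity : (0 : ℝ) ≤ (m : ℝ) + 1)
    have a2 := mul_le_mul_of_nonneg_left s3 hm0
    linarith
  have e4 := mul_le_mul_of_nonneg_left e3 hF
  have e5 := mul_le_mul_of_nonneg_left e2
    (by positivity : (0 : ℝ) ≤ (m : ℝ) * ((m : ℝ) + 1) / 4)
  have e6 : ((m + 1).factorial : ℝ) * ((m : ℝ) * (1 / 4 * X V 2)) =
      (m : ℝ) * ((m : ℝ) + 1) / 4 * T V 2 := by
    rw [t2, f1]
    ring
  have e7 : ((m + 2).factorial : ℝ) * (genus V : ℝ) =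
      ((m + 1).factorial : ℝ) * (((m : ℝ) + 2) * (genus V : ℝ)) := by
    rw [f2]
    ring
  rw [e7]
  refine e4.trans ?_
  rw [mul_add, e6, t0, f2]
  have e8 : ((m + 1).factorial : ℝ) * (((m : ℝ) + 2) * W V ∅ -
      ((m : ℝ) + 1) * ((1 / 2 - ((m : ℝ) + 1) * d) * X V 1)) =
      ((m : ℝ) + 2) * ((m + 1).factorial : ℝ) * W V ∅ -
        ((m : ℝ) + 1) * (1 / 2 - ((m : ℝ) + 1) * d) * T V 1 := by
    rw [t1]
    ring
  rw [e8]
  nlinarith [e5]

end Pool.Agent.Helper46.EQ.UB
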